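import Pool.Agent.Run7.h619.SK.Flex

/-!
# Averages of a function along the orbits of a chain transitive map with the periodic shadowing property
-/

set_option autoImplicit false
set_option linter.unusedSectionVars false

open Filter Set Metric
open scoped Topology

namespace Run7.h619.SK

open Pool.Agent.W564.SC

section

variable {Y : Type*} [MetricSpace Y] {E : Type*} [NormedAddCommGroup E] [NormedSpace ℝ E]
  {h : Y → Y} {c : Y → E}

/-- a `δ`-chain of length `m` from `p` to `q` along which the sum of `c` is `S` -/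
def ChS (h : Y → Y) (c : Y → E) (δ : ℝ) (m : ℕ) (p q : Y) (S : E) : Prop :=
  ∃ w : ℕ → Y, w 0 = p ∧ w m = q ∧ (∀ i < m, dist (h (w i)) (w (i + 1)) < δ) ∧
    ∑ i ∈ Finset.range m, c (w i) = S

theorem ChS.trans {δ : ℝ} {m m' : ℕ} {p q q' : Y} {S S' : E} (h1 : ChS h c δ m p q S)
    (h2 : ChS h c δ m' q q' S') : ChS h c δ (m + m') p q' (S + S') := by
  obtain ⟨w1, a1, a2, a3, a4⟩ := h1
  obtain ⟨w2, b1, b2, b3, b4⟩ := h2
  obtain ⟨w, h3, h4, h5⟩ := glue (fun a b => dist (h a) b < δ) a3 b3 (by rw [a2, b1])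
  refine ⟨w, by rw [h3 0 (Nat.zero_le _), a1], by rw [h4, b2], h5, ?_⟩
  rw [Finset.sum_range_add, ← a4, ← b4]
  congr 1
  · exact Finset.sum_congr rfl fun i hi => by rw [h3 i (Finset.mem_range.1 hi).le]
  · exact Finset.sum_congr rfl fun i _ => by rw [h4]

theorem ChS.orbit {δ : ℝ} (hδ : 0 < δ) (m : ℕ) (p : Y) :
    ChS h c δ m p (h^[m] p) (birkhoffSum h c m p) :=
  ⟨fun i => h^[i] p, rfl, rfl, fun i _ => by
    show dist (h (h^[i] p)) (h^[i + 1] p) < δ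
    rw [Function.iterate_succ_apply', dist_self]
    exact hδ, rfl⟩

theorem Ch.sum {δ : ℝ} {m : ℕ} {p q : Y} {B : ℝ} (hB : ∀ y, ‖c y‖ ≤ B) (h1 : Ch h δ m p q) :
    ∃ S, ChS h c δ m p q S ∧ ‖S‖ ≤ m * B := by
  obtain ⟨w, a1, a2, a3⟩ := h1
  refine ⟨_, ⟨w, a1, a2, a3, rfl⟩, (norm_sum_le _ _).trans ?_⟩
  refine (Finset.sum_le_sum fun i _ => hB (w i)).trans ?_
  rw [Finset.sum_const, Finset.card_range, nsmul_eq_mul]

variable [CompactSpace Y]

theorem exists_bound (hc : Continuous c) : ∃ B : ℝ, 0 ≤ B ∧ ∀ y, ‖c y‖ ≤ B := by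
  obtain ⟨B, hB⟩ := isCompact_univ.exists_bound_of_continuousOn hc.continuousOn
  exact ⟨max B 0, le_max_right _ _, fun y => (hB y (mem_univ y)).trans (le_max_left _ _)⟩

/-- loops are followed by periodic orbits -/
theorem ChS.close (hs : PerShadow h) (hc : Continuous c) (ε : ℝ) (hε : 0 < ε) :
    ∃ δ : ℝ, 0 < δ ∧ ∀ (m : ℕ) (p : Y) (S : E), 1 ≤ m → ChS h c δ m p p S →
      ∃ y', h^[m] y' = y' ∧ ‖birkhoffSum h c m y' - S‖ ≤ ε * m := by
  have huc := CompactSpace.uniformContinuous_of_continuous hc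
  obtain ⟨e, he, hec⟩ := Metric.uniformContinuous_iff.1 huc ε hε
  obtain ⟨δ, hδ, H⟩ := hs e he
  refine ⟨δ, hδ, ?_⟩
  rintro m p S hm ⟨w, a1, a2, a3, a4⟩
  obtain ⟨y', hy', hyw⟩ := H m w hm (by rw [a1, a2]) a3
  refine ⟨y', hy', ?_⟩
  rw [← a4]
  unfold birkhoffSum
  rw [← Finset.sum_sub_distrib]
  refine (norm_sum_le _ _).trans ?_
  have h2 : ∀ i ∈ Finset.range m, ‖c (h^[i] y') - c (w i)‖ ≤ ε := by
    intro i hi
    rw [← dist_eq_norm]
    exact (hec (hyw i (Finset.mem_range.1 hi))).le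
  refine (Finset.sum_le_sum h2).trans ?_
  rw [Finset.sum_const, Finset.card_range, nsmul_eq_mul, mul_comm]

/-- chains of bounded length -/
theorem unif_chain (hh : Continuous h) (hT : ChainTrans h) (δ : ℝ) (hδ : 0 < δ) :
    ∃ L : ℕ, ∀ p q : Y, ∃ l : ℕ, 1 ≤ l ∧ l ≤ L ∧ Ch h δ l p q := by
  have huc := CompactSpace.uniformContinuous_of_continuous hh
  obtain ⟨e, he, hec⟩ := Metric.uniformContinuous_iff.1 huc (δ / 3) (by positivity)
  obtain ⟨e', he'd⟩ : ∃ e' : ℝ, e' = min e (δ / 3) := ⟨_, rfl⟩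
  have he' : 0 < e' := by rw [he'd]; exact lt_min he (by positivity)
  obtain ⟨t, -, htf, ht⟩ := finite_cover_balls_of_compact (isCompact_univ : IsCompact (univ : Set Y)) he'
  have hcov : ∀ p : Y, ∃ a ∈ t, dist p a < e' := by
    intro p
    have := ht (mem_univ p)
    simp only [mem_iUnion, mem_ball, exists_prop] at this
    exact this
  have hch : ∀ z : Y × Y, ∃ l : ℕ, 1 ≤ l ∧ Ch h (δ / 3) l z.1 z.2 := by
    intro z
    obtain ⟨m, w, hm, h1, h2, h3⟩ := hT (δ / 3) (by positivity) z.1 z.2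
    exact ⟨m, hm, w, h1, h2, h3⟩
  choose lf hl1 hlc using hch
  obtain ⟨L, hL⟩ : ∃ L : ℕ, ∀ z ∈ t ×ˢ t, lf z ≤ L := by
    obtain ⟨L, hL⟩ := ((htf.prod htf).image lf).bddAbove
    exact ⟨L, fun z hz => hL (mem_image_of_mem _ hz)⟩
  refine ⟨L, fun p q => ?_⟩
  obtain ⟨a, ha, hpa⟩ := hcov p
  obtain ⟨b, hb, hqb⟩ := hcov q
  obtain ⟨w, a1, a2, a3⟩ := hlc (a, b)
  obtain ⟨l, hl⟩ : ∃ l, l = lf (a, b) := ⟨_, rfl⟩
  rw [← hl] at a2 a3
  have hl1' : 1 ≤ l := by rw [hl]; exact hl1 _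
  have hd1 : dist (h p) (h (w 0)) < δ / 3 := by
    rw [a1]
    exact hec (hpa.trans_le (by rw [he'd]; exact min_le_left _ _))
  have hd2 : dist (w l) q < δ / 3 := by
    rw [a2, dist_comm]
    exact hqb.trans_le (by rw [he'd]; exact min_le_right _ _)
  refine ⟨l, hl1', by rw [hl]; exact hL _ ⟨ha, hb⟩, fun i => if i = 0 then p else if i = l then q else w i,
    by simp, ?_, ?_⟩
  · have : l ≠ 0 := by omega
    simp [this]
  · intro i hi
    have e1 : dist (h (if i = 0 then p else if i = l then q else w i)) (h (w i)) < δ / 3 := by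
      by_cases h0 : i = 0
      · simp only [h0, if_true]
        exact hd1
      · have h2 : i ≠ l := by omega
        simp only [h0, h2, if_false, dist_self]
        positivity
    have e2 : dist (w (i + 1)) (if i + 1 = 0 then p else if i + 1 = l then q else w (i + 1)) < δ / 3 := by
      have h0 : i + 1 ≠ 0 := by omega
      by_cases h2 : i + 1 = l
      · simp only [h2, if_true]
        rw [if_neg (by omega)]
        exact hd2
      · simp only [h0, h2, if_false, dist_self]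
        positivity
    have e3 := a3 i hi
    have e4 := dist_triangle4 (h (if i = 0 then p else if i = l then q else w i)) (h (w i)) (w (i + 1))
      (if i + 1 = 0 then p else if i + 1 = l then q else w (i + 1))
    linarith

/-- orbit segments are followed by periodic orbits of slightly larger period -/
theorem avg_close (hh : Continuous h) (hs : PerShadow h) (hT : ChainTrans h) (hc : Continuous c)
    (ε : ℝ) (hε : 0 < ε) : ∃ (L : ℕ) (C : ℝ), 0 ≤ C ∧ ∀ (y : Y) (m : ℕ), ∃ (y' : Y) (m' : ℕ), m ≤ m' ∧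
      m' ≤ m + L ∧ 1 ≤ m' ∧ h^[m'] y' = y' ∧
      ‖birkhoffSum h c m y - birkhoffSum h c m' y'‖ ≤ ε * m + C := by
  obtain ⟨B, hB0, hB⟩ := exists_bound hc
  obtain ⟨δ, hδ, hcl⟩ := ChS.close hs hc ε hε
  obtain ⟨L, hL⟩ := unif_chain hh hT δ hδ
  refine ⟨L, ε * L + L * B, by positivity, fun y m => ?_⟩
  obtain ⟨l, hl1, hlL, hch⟩ := hL (h^[m] y) y
  obtain ⟨S, hS, hSn⟩ := hch.sum hB
  have h1 := (ChS.orbit (h := h) (c := c) hδ m y).trans hS
  obtain ⟨y', hy', hyS⟩ := hcl (m + l) y _ (by omega) h1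
  refine ⟨y', m + l, by omega, by omega, by omega, hy', ?_⟩
  have hlL' : (l : ℝ) ≤ L := by exact_mod_cast hlL
  have h2 : birkhoffSum h c m y - birkhoffSum h c (m + l) y' =
      -(birkhoffSum h c (m + l) y' - (birkhoffSum h c m y + S)) - S := by abel
  rw [h2]
  refine (norm_sub_le _ _).trans ?_
  rw [norm_neg]
  push_cast at hyS
  have h3 : (l : ℝ) * B ≤ L * B := mul_le_mul_of_nonneg_right hlL' hB0
  have h4 : ε * (l : ℝ) ≤ ε * L := mul_le_mul_of_nonneg_left hlL' hε.le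
  linarith

/-- the averages along the periodic orbits -/
def avgs (h : Y → Y) (c : Y → E) : Set E :=
  {a | ∃ (y : Y) (m : ℕ), 1 ≤ m ∧ h^[m] y = y ∧ a = (m : ℝ)⁻¹ • birkhoffSum h c m y}

theorem loop_sum {q : Y} {b : ℕ} (hq : h^[b] q = q) (k : ℕ) :
    h^[k * b] q = q ∧ birkhoffSum h c (k * b) q = (k : ℝ) • birkhoffSum h c b q := by
  induction k with
  | zero => simp
  | succ k ih =>
    have e : (k + 1) * b = k * b + b := by ring
    refine ⟨?_, ?_⟩
    · rw [e, Function.iterate_add_apply, hq, ih.1]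
    · rw [e, birkhoffSum_add, ih.1, ih.2]
      push_cast
      rw [add_smul, one_smul]

theorem floor_arith {k a b : ℝ} (f1 : k ≤ a) (f2 : a < k + 1) (hb : 0 < b) :
    k * b ≤ a * b ∧ a * b ≤ k * b + b := by
  refine ⟨mul_le_mul_of_nonneg_right f1 hb.le, ?_⟩
  have := mul_le_mul_of_nonneg_right f2.le hb.le
  rw [add_mul, one_mul] at this
  exact this

theorem avgs_segment (hs : PerShadow h) (hT : ChainTrans h) (hc : Continuous c) {a1 a2 : E}
    (h1 : a1 ∈ avgs h c) (h2 : a2 ∈ avgs h c) {s t : ℝ} (hs0 : 0 ≤ s) (ht0 : 0 ≤ t) (hst : s + t = 1) :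
    s • a1 + t • a2 ∈ closure (avgs h c) := by
  rw [Metric.mem_closure_iff]
  intro ε hε
  obtain ⟨q1, b1, hb1, hq1, ha1⟩ := h1
  obtain ⟨q2, b2, hb2, hq2, ha2⟩ := h2
  obtain ⟨B, hB0, hB⟩ := exists_bound hc
  obtain ⟨δ, hδ, hcl⟩ := ChS.close (h := h) (c := c) hs hc (ε / 2) (half_pos hε)
  obtain ⟨l1, w1, hl1, w10, w11, w12⟩ := hT δ hδ q1 q2
  obtain ⟨l2, w2, hl2, w20, w21, w22⟩ := hT δ hδ q2 q1
  obtain ⟨S1, hS1, hS1n⟩ := Ch.sum (h := h) (c := c) hB (⟨w1, w10, w11, w12⟩ : Ch h δ l1 q1 q2)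
  obtain ⟨S2, hS2, hS2n⟩ := Ch.sum (h := h) (c := c) hB (⟨w2, w20, w21, w22⟩ : Ch h δ l2 q2 q1)
  have hb1' : (0 : ℝ) < b1 := by exact_mod_cast hb1
  have hb2' : (0 : ℝ) < b2 := by exact_mod_cast hb2
  have hb12 : (1 : ℝ) ≤ b1 * b2 := by
    have h3 : (1 : ℝ) ≤ b1 := by exact_mod_cast hb1
    have h4 : (1 : ℝ) ≤ b2 := by exact_mod_cast hb2
    nlinarith
  have e1 : birkhoffSum h c b1 q1 = (b1 : ℝ) • a1 := by
    rw [ha1, smul_smul, mul_inv_cancel₀ hb1'.ne', one_smul]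
  have e2 : birkhoffSum h c b2 q2 = (b2 : ℝ) • a2 := by
    rw [ha2, smul_smul, mul_inv_cancel₀ hb2'.ne', one_smul]
  obtain ⟨D, hD⟩ : ∃ D : ℝ, D = b1 * ‖a1‖ + b2 * ‖a2‖ + (l1 * B + l2 * B) +
      (b1 + b2 + (l1 + l2)) * ‖s • a1 + t • a2‖ := ⟨_, rfl⟩
  have hD0 : 0 ≤ D := by rw [hD]; positivity
  obtain ⟨K, hK⟩ := exists_nat_gt (2 * D / ε + (b1 + b2 + 1))
  have hKb : (b1 : ℝ) + b2 + 1 < K := by
    have : 0 ≤ 2 * D / ε := by positivity
    linarith
  have hKD : 2 * D / ε < K - (b1 + b2) := by linarith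
  obtain ⟨k1, hk1⟩ : ∃ k1 : ℕ, k1 = ⌊s * K * b2⌋₊ := ⟨_, rfl⟩
  obtain ⟨k2, hk2⟩ : ∃ k2 : ℕ, k2 = ⌊t * K * b1⌋₊ := ⟨_, rfl⟩
  have f1 : (k1 : ℝ) ≤ s * K * b2 := by rw [hk1]; exact Nat.floor_le (by positivity)
  have f2 : s * K * b2 < k1 + 1 := by rw [hk1]; exact Nat.lt_floor_add_one _
  have f3 : (k2 : ℝ) ≤ t * K * b1 := by rw [hk2]; exact Nat.floor_le (by positivity)
  have f4 : t * K * b1 < k2 + 1 := by rw [hk2]; exact Nat.lt_floor_add_one _
  have hl := (((ChS.orbit (h := h) (c := c) hδ (k1 * b1) q1)))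
  rw [(loop_sum (h := h) (c := c) hq1 k1).1, (loop_sum (h := h) (c := c) hq1 k1).2] at hl
  have hl' := (((ChS.orbit (h := h) (c := c) hδ (k2 * b2) q2)))
  rw [(loop_sum (h := h) (c := c) hq2 k2).1, (loop_sum (h := h) (c := c) hq2 k2).2] at hl'
  have hall := ((hl.trans hS1).trans hl').trans hS2
  obtain ⟨m, hm⟩ : ∃ m : ℕ, m = k1 * b1 + l1 + k2 * b2 + l2 := ⟨_, rfl⟩
  rw [← hm] at hall
  have hm1 : 1 ≤ m := by omega
  obtain ⟨y', hy', hyS⟩ := hcl m q1 _ hm1 hall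
  have hm0 : (0 : ℝ) < m := by exact_mod_cast hm1
  refine ⟨(m : ℝ)⁻¹ • birkhoffSum h c m y', ⟨y', m, hm1, hy', rfl⟩, ?_⟩
  have hmc : (m : ℝ) = k1 * b1 + l1 + k2 * b2 + l2 := by rw [hm]; push_cast; ring
  obtain ⟨T, hT'⟩ : ∃ T : E, T = s • a1 + t • a2 := ⟨_, rfl⟩
  obtain ⟨S, hS⟩ : ∃ S : E, S = (k1 : ℝ) • birkhoffSum h c b1 q1 + S1 +
      (k2 : ℝ) • birkhoffSum h c b2 q2 + S2 := ⟨_, rfl⟩
  rw [← hS] at hyS
  rw [← hT'] at hD ⊢
  -- the main estimate
  have g1 : S - (m : ℝ) • T = ((k1 : ℝ) * b1 - s * K * b2 * b1) • a1 +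
      ((k2 : ℝ) * b2 - t * K * b1 * b2) • a2 + (S1 + S2) - ((m : ℝ) - K * b1 * b2) • T := by
    have : (K * b1 * b2 : ℝ) • T = (s * K * b2 * b1) • a1 + (t * K * b1 * b2) • a2 := by
      rw [hT', smul_add, smul_smul, smul_smul]
      congr 2 <;> ring
    rw [sub_smul (m : ℝ), this, hS, e1, e2, smul_smul, smul_smul, sub_smul, sub_smul]
    abel
  obtain ⟨u1, u2⟩ := floor_arith f1 f2 hb1'
  obtain ⟨u3, u4⟩ := floor_arith f3 f4 hb2'
  have n1 : ‖((k1 : ℝ) * b1 - s * K * b2 * b1) • a1‖ ≤ b1 * ‖a1‖ := by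
    rw [norm_smul, Real.norm_eq_abs]
    apply mul_le_mul_of_nonneg_right _ (norm_nonneg _)
    rw [abs_le]
    constructor <;> linarith
  have n2 : ‖((k2 : ℝ) * b2 - t * K * b1 * b2) • a2‖ ≤ b2 * ‖a2‖ := by
    rw [norm_smul, Real.norm_eq_abs]
    apply mul_le_mul_of_nonneg_right _ (norm_nonneg _)
    rw [abs_le]
    constructor <;> linarith
  have n3 : ‖S1 + S2‖ ≤ l1 * B + l2 * B := (norm_add_le _ _).trans (add_le_add hS1n hS2n)
  have hKm : (K * b1 * b2 : ℝ) = s * K * b2 * b1 + t * K * b1 * b2 := by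
    have : (K * b1 * b2 : ℝ) = (s + t) * (K * b1 * b2) := by rw [hst, one_mul]
    rw [this]
    ring
  have n4 : ‖((m : ℝ) - K * b1 * b2) • T‖ ≤ (b1 + b2 + (l1 + l2)) * ‖T‖ := by
    rw [norm_smul, Real.norm_eq_abs]
    apply mul_le_mul_of_nonneg_right _ (norm_nonneg _)
    have hl1' : (0 : ℝ) ≤ l1 := Nat.cast_nonneg _
    have hl2' : (0 : ℝ) ≤ l2 := Nat.cast_nonneg _
    rw [abs_le, hmc, hKm]
    constructor <;> linarith
  have n5 : ‖S - (m : ℝ) • T‖ ≤ D := by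
    rw [g1, hD]
    refine (norm_sub_le _ _).trans (add_le_add ((norm_add_le _ _).trans (add_le_add
      ((norm_add_le _ _).trans (add_le_add n1 n2)) n3)) n4)
  have hmK : (K : ℝ) - (b1 + b2) ≤ m := by
    have h3 : (K : ℝ) ≤ K * b1 * b2 := by
      have := mul_le_mul_of_nonneg_left hb12 (Nat.cast_nonneg (α := ℝ) K)
      rw [mul_one, ← mul_assoc] at this
      exact this
    have hl1' : (0 : ℝ) ≤ l1 := Nat.cast_nonneg _
    have hl2' : (0 : ℝ) ≤ l2 := Nat.cast_nonneg _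
    rw [hmc]
    linarith
  have n6 : D < ε / 2 * m := by
    have h3 : 2 * D / ε < m := hKD.trans_le hmK
    rw [div_lt_iff₀ hε] at h3
    linarith
  have n7 : ‖birkhoffSum h c m y' - (m : ℝ) • T‖ < ε * m := by
    have h3 : birkhoffSum h c m y' - (m : ℝ) • T = (birkhoffSum h c m y' - S) + (S - (m : ℝ) • T) := by
      abel
    rw [h3]
    refine (norm_add_le _ _).trans_lt ?_
    linarith
  rw [dist_comm, dist_eq_norm]
  have n8 : (m : ℝ)⁻¹ • birkhoffSum h c m y' - T =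
      (m : ℝ)⁻¹ • (birkhoffSum h c m y' - (m : ℝ) • T) := by
    rw [smul_sub, smul_smul, inv_mul_cancel₀ hm0.ne', one_smul]
  rw [n8, norm_smul, norm_inv, Real.norm_of_nonneg hm0.le, inv_mul_lt_iff₀ hm0, mul_comm]
  exact n7

theorem avgs_convex (hs : PerShadow h) (hT : ChainTrans h) (hc : Continuous c) :
    Convex ℝ (closure (avgs h c)) := by
  intro a1 h1 a2 h2 s t hs0 ht0 hst
  have hcont : Continuous fun p : E × E => s • p.1 + t • p.2 := by fun_prop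
  have h3 := map_mem_closure₂ (f := fun a b : E => s • a + t • b) hcont h1 h2
    (fun a ha b hb => avgs_segment hs hT hc ha hb hs0 ht0 hst)
  rwa [closure_closure] at h3

/-- **Drift.** If the averages along the periodic orbits are bounded away from zero, then the Birkhoff
sums drift in one direction. -/
theorem drift (hh : Continuous h) (hs : PerShadow h) (hT : ChainTrans h) (hc : Continuous c)
    (κ : ℝ) (hκ : 0 < κ) (H : ∀ (y : Y) (m : ℕ), 1 ≤ m → h^[m] y = y → κ * m ≤ ‖birkhoffSum h c m y‖) :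
    ∃ (l : E →L[ℝ] ℝ) (κ' C : ℝ), 0 < κ' ∧ ∀ (y : Y) (m : ℕ), κ' * m - C ≤ l (birkhoffSum h c m y) := by
  have h0 : (0 : E) ∉ closure (avgs h c) := by
    intro h1
    rw [Metric.mem_closure_iff] at h1
    obtain ⟨a, ⟨y, m, hm, hy, rfl⟩, ha⟩ := h1 κ hκ
    have hm0 : (0 : ℝ) < m := by exact_mod_cast hm
    rw [dist_zero_left, norm_smul, norm_inv, Real.norm_of_nonneg hm0.le, inv_mul_lt_iff₀ hm0] at ha
    have := H y m hm hy
    linarith
  obtain ⟨l, u, hu, hlu⟩ := geometric_hahn_banach_point_closed (avgs_convex hs hT hc) isClosed_closure h0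
  rw [map_zero] at hu
  obtain ⟨L, C, hC, H2⟩ := avg_close (h := h) (c := c) hh hs hT hc (u / (2 * (‖l‖ + 1))) (by positivity)
  refine ⟨l, u / 2, ‖l‖ * C, half_pos hu, fun y m => ?_⟩
  obtain ⟨y', m', hm1, -, hm', hy', hd⟩ := H2 y m
  have hm0 : (0 : ℝ) < m' := by exact_mod_cast hm'
  have h1 := hlu _ (subset_closure ⟨y', m', hm', hy', rfl⟩)
  rw [map_smul, smul_eq_mul, lt_inv_mul_iff₀ hm0] at h1
  have h2 : l (birkhoffSum h c m' y') - l (birkhoffSum h c m y) ≤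
      ‖l‖ * (u / (2 * (‖l‖ + 1)) * m + C) := by
    rw [← map_sub]
    refine (le_abs_self _).trans ?_
    rw [← Real.norm_eq_abs]
    refine (l.le_opNorm _).trans (mul_le_mul_of_nonneg_left ?_ (norm_nonneg _))
    rw [norm_sub_rev]
    exact hd
  have h3 : ‖l‖ * (u / (2 * (‖l‖ + 1)) * m) ≤ u / 2 * m := by
    have h4 : ‖l‖ * (u / (2 * (‖l‖ + 1)) * m) = ‖l‖ / (‖l‖ + 1) * (u / 2 * m) := by
      field_simp
    rw [h4]
    have h5 : ‖l‖ / (‖l‖ + 1) ≤ 1 := by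
      rw [div_le_one (by positivity)]
      linarith
    exact mul_le_of_le_one_left (by positivity) h5
  have h6 : u * (m : ℝ) ≤ m' * u := by
    have : (m : ℝ) ≤ m' := by exact_mod_cast hm1
    rw [mul_comm]
    exact mul_le_mul_of_nonneg_right this hu.le
  rw [mul_add] at h2
  linarith

end

end Run7.h619.SK
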