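import Pool.Agent.Run7.h619.OM.MainA
import Pool.Agent.Run7.h619.SK.FlowStm

/-!
# `Ω`-stable diffeomorphisms and skew products over hyperbolic maps and flows: statements
-/

set_option autoImplicit false
set_option linter.unusedSectionVars false

open Filter Set Metric
open scoped Manifold ContDiff Topology

universe u v w

namespace Run7.h619.SK

open Pool.Agent.H718R2.G Pool.Agent.W564.SC Pool.Agent.N15.OT Pool.Agent.TH80.OMS

/-- `S_m c(y) = c(y) + c(h y) + ... + c(h^(m-1) y)` drifts to infinity in one direction, uniformly: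
`l(S_m c(y)) ≥ κ m - C` for a linear functional `l` and constants `κ > 0` and `C`. -/
def Drift {Y : Type*} {d : ℕ} (h : Y → Y) (c : Y → V d) : Prop :=
  ∃ (l : V d →L[ℝ] ℝ) (κ C : ℝ), 0 < κ ∧ ∀ (y : Y) (m : ℕ), κ * m - C ≤ l (birkhoffSum h c m y)

/-- Conclusions for a diffeomorphism `F` which is on `Θ(X × Y)` the skew product `skew φ f h c`:
1. the points `x` below the nonwandering points `(x, y)` of the skew product are fixed by the action `φ`,
   and there is such a point;
2. if `Θ(X × Y)` is all of `N`, then the nonwandering set of `F` is the closure of the set of the periodic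
   points, and it is a union of sets `Θ({x} × Y)`;
3. if `f` is the identity, then the action `φ` has only finitely many fixed points `x`, the nonwandering
   points of the skew product are the points `(x, y)` over these, they are limits of periodic points
   (`Θ(x, y)` is a limit of periodic points of `F` in `Θ(X × Y)`), and if `X` is infinite, then the sums
   of `c` drift to infinity. -/
structure SkewConcl {d n : ℕ} {N : Type*} [TopologicalSpace N] [ChartedSpace (V n) N] {r : ℕ∞}
    (F : DiffM n N r) {X Y : Type*} [TopologicalSpace X] [TopologicalSpace Y] (Θ : X × Y → N)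
    (φ : V d → X → X) (f : X → X) (h : Y → Y) (c : Y → V d) : Prop where
  fixed : ∀ x y, NonWand (skew φ f h c) (x, y) → ∀ s, φ s x = x
  exists_fixed : Nonempty X → ∃ x, ∀ s, φ s x = x
  omega : Function.Surjective Θ → Omega F = closure (Per F) ∧
    ∀ x y y', Θ (x, y) ∈ Omega F → Θ (x, y') ∈ Omega F
  finite : (∀ x, f x = x) → {x | ∀ s, φ s x = x}.Finite
  nonwand : (∀ x, f x = x) → ∀ x y, (∀ s, φ s x = x) →
    NonWand (skew φ f h c) (x, y) ∧ Θ (x, y) ∈ closure (Per F ∩ range Θ)
  drift : (∀ x, f x = x) → Infinite X → Drift h c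

/-- there are nonwandering points -/
theorem exists_nonWand {Z : Type*} [TopologicalSpace Z] [CompactSpace Z] [Nonempty Z] (S : Z → Z) :
    ∃ p, NonWand S p := by
  by_contra hcon
  have h1 : ∀ p : Z, ∃ W ∈ 𝓝 p, ∀ m : ℕ, 1 ≤ m → ∀ y ∈ W, S^[m] y ∉ W := by
    intro p
    by_contra h2
    apply hcon
    refine ⟨p, fun W hW => ?_⟩
    by_contra h3
    apply h2
    refine ⟨W, hW, fun m hm y hy hmy => h3 ⟨m, hm, y, hy, hmy⟩⟩
  choose W hW hWm using h1
  obtain ⟨t, ht⟩ := CompactSpace.elim_nhds_subcover W hW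
  obtain ⟨p⟩ := ‹Nonempty Z›
  have h2 : ∀ i : ℕ, ∃ a ∈ t, S^[i] p ∈ W a := by
    intro i
    have h3 : S^[i] p ∈ ⋃ x ∈ t, W x := by
      rw [ht]
      trivial
    simpa using h3
  choose a hat ha using h2
  obtain ⟨i, -, j, -, hij, hijeq⟩ := Set.infinite_univ.exists_lt_map_eq_of_mapsTo
    (f := a) (t := (t : Set Z)) (fun i _ => hat i) t.finite_toSet
  · have h4 := hWm (a i) (j - i) (by omega) (S^[i] p) (ha i)
    apply h4
    rw [← Function.iterate_add_apply, Nat.sub_add_cancel hij.le, hijeq]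
    exact ha j

section

variable {n : ℕ} {N : Type u} [TopologicalSpace N] [T2Space N] [CompactSpace N]
  [ChartedSpace (V n) N] [IsManifold (𝓡 n) ∞ N] {r : ℕ∞}

theorem skew_concl (hr : 1 ≤ r) {F : DiffM n N r} (hF : OmegaStable n N r F) {d : ℕ} {X : Type v}
    {Y : Type w} [MetricSpace X] [CompactSpace X] [MetricSpace Y] [CompactSpace Y] [Infinite Y]
    {Θ : X × Y → N} {ψ : V d → N → N} {φ : V d → X → X} {f : X → X} {h : Y ≃ₜ Y} {c : Y → V d}
    (H : IsSkew F Θ ψ φ f h c) (hψ : IsAct d n N ⊤ ψ) (hs : PerShadow h) (hT : ChainTrans h) :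
    SkewConcl F Θ φ f h c where
  fixed := fun x y hw => fixed_of_nonwand hr hF H hψ hs hT hw
  exists_fixed := fun hX => by
    obtain ⟨p, hp⟩ := exists_nonWand (skew φ f h c)
    exact ⟨p.1, fixed_of_nonwand hr hF H hψ hs hT (x := p.1) (y := p.2) hp⟩
  omega := fun hΘ => by
    have hsub : closure (Per F) ⊆ Omega F := by
      apply closure_minimal
      · rintro z ⟨m, hm, hmz⟩ W hW hzW
        exact ⟨m, hm, z, hzW, by rw [hmz]; exact hzW⟩
      · rw [← isOpen_compl_iff, isOpen_iff_forall_mem_open]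
        intro z hz
        have h1 : ∃ W : Set N, IsOpen W ∧ z ∈ W ∧ ∀ k : ℕ, 1 ≤ k → ∀ y ∈ W, F^[k] y ∉ W := by
          by_contra h2
          apply hz
          intro W hW hzW
          by_contra h3
          exact h2 ⟨W, hW, hzW, fun k hk y hy hky => h3 ⟨k, hk, y, hy, hky⟩⟩
        obtain ⟨W, hW, hzW, hWk⟩ := h1
        refine ⟨W, fun y hy hy' => ?_, hW, hzW⟩
        obtain ⟨k, hk, y', hy', hky'⟩ := hy' W hW hy
        exact hWk k hk y' hy' hky'
    refine ⟨Subset.antisymm ?_ hsub, fun x y y' hxy =>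
      hsub (per_dense_of_surj hr hF H hψ hs hT hΘ hxy y')⟩
    intro z hz
    obtain ⟨⟨x, y⟩, rfl⟩ := hΘ z
    exact per_dense_of_surj hr hF H hψ hs hT hΘ hz y
  finite := fun hf => by
    obtain rfl : f = id := funext hf
    exact fixed_finite hr hF H hs hT
  nonwand := fun hf x y hx => by
    obtain rfl : f = id := funext hf
    exact ⟨nonWand_of_fixed hs hT hx y, limit_of_fixed H hs hT hx y⟩
  drift := fun hf hX => by
    obtain rfl : f = id := funext hf
    exact drift_of_stable hr hF H hs hT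

theorem no_flow_set (hr : 1 ≤ r) {F : DiffM n N r} (hF : OmegaStable n N r F) {d : ℕ} {X : Type v}
    {Y : Type w} [MetricSpace X] [CompactSpace X] [MetricSpace Y] [CompactSpace Y] [Nonempty X]
    [Nonempty Y] {Θ : X × Y → N} {ψ : V d → N → N} {Ψ : ℝ → N → N} {φ : V d → X → X} {f : X → X}
    {g : ℝ → Y → Y} {C : ℝ → Y → V d} (H : IsSkewFlow n r Θ ψ Ψ φ g C) (hΨ : IsRFlow n N ⊤ Ψ)
    (hg : IsBaseFlow g) (hf : Continuous f) (hcomm : ∀ s x, f (φ s x) = φ s (f x)) (τ : ℝ)
    (hτ0 : 0 < τ) (hmap : ∀ x y, F (Θ (x, y)) = Ψ τ (Θ (f x, y))) : False := by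
  obtain ⟨p, hp⟩ := exists_nonWand (skew φ f (g τ) (C τ))
  exact no_skew_flow hr hF H hΨ hf hcomm τ hτ0 hmap hg.shadow hg.trans hg.ne p.1 p.2 hp

end

end Run7.h619.SK
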