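import Pool.Agent.Run7.h619.OM.Ret
import Pool.Agent.Run7.h619.OM.RetF
import Pool.Agent.Run7.h619.OM.Avg
import Pool.Agent.N15.OT.EIG
import Pool.Agent.N15.OT.FPER
import Pool.Agent.N15.OT.LIN
import Pool.Agent.N15.OT.FLD

/-!
# `Ω`-stable diffeomorphisms and skew products over hyperbolic maps and flows
-/

set_option autoImplicit false
set_option linter.unusedSectionVars false

open Filter Set Metric
open scoped Manifold ContDiff Topology

universe u v w

namespace Run7.h619.SK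

open Pool.Agent.H718R2.G Pool.Agent.W564.SC Pool.Agent.W216.SC Pool.Agent.N15.OT
  Pool.Agent.TH80.OMS

section

variable {d n : ℕ} {N : Type u} [TopologicalSpace N] [T2Space N] [CompactSpace N]
  [ChartedSpace (V n) N] [IsManifold (𝓡 n) ∞ N] {r : ℕ∞} {ψ : V d → N → N}

/-- the one-parameter groups of a smooth action -/
theorem sflowA (hψ : IsAct d n N ⊤ ψ) (v : V d) : SFlow n N (fun t y => ψ (t • v) y) where
  smooth := by
    have h1 : ContMDiff (𝓘(ℝ, ℝ).prod (𝓡 n)) (𝓡 d) ∞ (fun q : ℝ × N => q.1 • v) := by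
      have h2 : ContMDiff 𝓘(ℝ, ℝ) (𝓡 d) ∞ (fun t : ℝ => t • v) :=
        (contDiff_id.smul contDiff_const).contMDiff
      exact h2.comp contMDiff_fst
    exact hψ.smooth.comp (h1.prodMk contMDiff_snd)
  zero := fun y => by rw [zero_smul, hψ.zero]
  add := fun s t y => by rw [add_smul, hψ.add]

theorem dAct_zero (hψ : IsAct d n N r ψ) (F : DiffM n N r) : F.trans (dAct hψ 0) = F := by
  ext z
  exact hψ.zero _

/-- the members of a family with small parameters are close to `H 0` -/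
theorem fam_mem (hr : 1 ≤ r) {P : Type} [NormedAddCommGroup P] [NormedSpace ℝ P]
    {H : P → DiffM n N r} (hH : IsFam n N r H) [Nonempty N] {U : Set (DiffM n N r)}
    (hU : IsOpen[strongTop n N r] U) (hHU : H 0 ∈ U) : ∃ κ : ℝ, 0 < κ ∧ ∀ s, ‖s‖ < κ → H s ∈ U := by
  obtain ⟨z⟩ := ‹Nonempty N›
  obtain ⟨χ, hχ⟩ := Pool.Agent.W699.SC.gc n N z
  obtain ⟨k, hk, hkr, κ, hκ, h⟩ := t_NBHD n N r hr P H hH χ z hχ U hU hHU
  refine ⟨κ, hκ, fun s hs => ?_⟩
  have h0 := h s (fun _ => 0) (Diffeomorph.refl (𝓡 n) N r) hs ⟨contDiff_const, fun _ _ => rfl, by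
    intro j _ x
    have : iteratedFDeriv ℝ j (fun _ : V n => (0 : V n)) x = 0 := by
      rw [iteratedFDeriv_fun_zero]
      rfl
    rw [this, norm_zero]
    exact hκ.le⟩ ⟨fun y hy => ⟨hy, by simp⟩, fun y _ => rfl⟩
  have e : (H s).trans (Diffeomorph.refl (𝓡 n) N r) = H s := by
    ext y
    rfl
  rwa [e] at h0

variable {F : DiffM n N r} {X : Type v} {Y : Type w} [MetricSpace X] [CompactSpace X] [MetricSpace Y]
  [CompactSpace Y] [Infinite Y] {Θ : X × Y → N} {φ : V d → X → X} {f : X → X} {h : Y ≃ₜ Y}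
  {c : Y → V d}

/-- all nonwandering points are fixed by the action -/
theorem fixed_of_nonwand (hr : 1 ≤ r) (hF : OmegaStable n N r F) (H : IsSkew F Θ ψ φ f h c)
    (hψ : IsAct d n N ⊤ ψ) (hs : PerShadow h) (hT : ChainTrans h) {x : X} {y : Y}
    (hw : NonWand (skew φ f h c) (x, y)) (v : V d) : φ v x = x := by
  have : Nonempty Y := ⟨y⟩
  obtain ⟨χ, hχ⟩ := Pool.Agent.W699.SC.gc n N (Θ (x, y))
  have hF' : OmegaStable n N r (F.trans (dAct H.act 0)) := (dAct_zero H.act F).symm ▸ hF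
  have h1 := eig lin fld n N r hr (V d) (fun s => F.trans (dAct H.act s)) (fam H.act F) hF' χ
    (Θ (x, y)) hχ (fun t y => ψ (t • v) y) (sflowA hψ v) (range Θ) (by
      rintro t _ ⟨⟨x', y'⟩, rfl⟩
      exact ⟨(φ (t • v) x', y'), (H.restr _ _ _).symm⟩) (by
      rintro s _ ⟨⟨x', y'⟩, rfl⟩
      show ψ s (F (Θ (x', y'))) ∈ range Θ
      rw [H.map]
      exact ⟨(φ s (skew φ f h c (x', y')).1, (skew φ f h c (x', y')).2), (H.restr _ _ _).symm⟩) (by
      rintro s t _ ⟨⟨x', y'⟩, rfl⟩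
      show ψ s (F (ψ (t • v) (Θ (x', y')))) = ψ (t • v) (ψ s (F (Θ (x', y'))))
      rw [H.restr, H.map, H.map]
      unfold skew
      simp only
      rw [H.restr, H.restr, H.restr, H.comm, ← H.phi_add, ← H.phi_add, ← H.phi_add, ← H.phi_add]
      congr 3
      abel) (ret_of_skew F H hs hT x y hw y χ hχ) 1
  simp only [one_smul] at h1
  rw [H.restr] at h1
  exact congrArg Prod.fst (H.emb.injective h1)

/-- periodic points are nonwandering -/
theorem nonWand_per {Z : Type*} [TopologicalSpace Z] {S : Z → Z} {p : Z} {m : ℕ} (hm : 1 ≤ m)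
    (hp : S^[m] p = p) : NonWand S p :=
  fun W hW => ⟨m, hm, p, mem_of_mem_nhds hW, by rw [hp]; exact mem_of_mem_nhds hW⟩

/-- the iterates of `F` on the set -/
theorem iter_eq (H : IsSkew F Θ ψ φ f h c) (m : ℕ) (p : X × Y) :
    F^[m] (Θ p) = Θ ((skew φ f h c)^[m] p) := by
  induction m with
  | zero => rfl
  | succ m ih =>
    rw [Function.iterate_succ_apply', ih, H.map, ← Function.iterate_succ_apply' (skew φ f h c)]

/-- the nonwandering points of `F` are those of the skew product if the set is all of `N` -/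
theorem nonWand_iff (H : IsSkew F Θ ψ φ f h c) (hΘ : Function.Surjective Θ) (p : X × Y) :
    Θ p ∈ Omega F ↔ NonWand (skew φ f h c) p := by
  constructor
  · intro hp W hW
    rw [H.emb.nhds_eq_comap, mem_comap] at hW
    obtain ⟨W', hW', hsub⟩ := hW
    obtain ⟨k, hk, y, hy, hky⟩ := hp _ isOpen_interior (mem_interior_iff_mem_nhds.2 hW')
    obtain ⟨q, rfl⟩ := hΘ y
    rw [iter_eq H] at hky
    have h1 : Θ q ∈ W' := interior_subset hy
    have h2 : Θ ((skew φ f h c)^[k] q) ∈ W' := interior_subset hky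
    exact ⟨k, hk, q, hsub h1, hsub h2⟩
  · intro hp W hW hpW
    obtain ⟨k, hk, q, hq, hkq⟩ := hp (Θ ⁻¹' W) (H.emb.continuous.continuousAt.preimage_mem_nhds
      (hW.mem_nhds hpW))
    exact ⟨k, hk, Θ q, hq, by rw [iter_eq H]; exact hkq⟩

/-- if the set is all of `N`, the nonwandering points are limits of periodic points, and the property
depends on `x` only -/
theorem per_dense_of_surj (hr : 1 ≤ r) (hF : OmegaStable n N r F) (H : IsSkew F Θ ψ φ f h c)
    (hψ : IsAct d n N ⊤ ψ) (hs : PerShadow h) (hT : ChainTrans h) (hΘ : Function.Surjective Θ)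
    {x : X} {y : Y} (hw : Θ (x, y) ∈ Omega F) (y₁ : Y) : Θ (x, y₁) ∈ closure (Per F) := by
  have : Nonempty Y := ⟨y⟩
  obtain ⟨χ, hχ⟩ := Pool.Agent.W699.SC.gc n N (Θ (x, y₁))
  have hF' : OmegaStable n N r (F.trans (dAct H.act 0)) := (dAct_zero H.act F).symm ▸ hF
  have h1 := fper n N r hr (V d) (fun s => F.trans (dAct H.act s)) (fam H.act F) hF' (by
      intro s z hz
      rw [dAct_zero] at hz ⊢
      show ψ s (F z) = F z
      obtain ⟨m, hm, hmz⟩ := hz
      obtain ⟨q, hq⟩ := hΘ (F z)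
      have h2 : F^[m] (Θ q) = Θ q := by
        rw [hq, ← Function.iterate_succ_apply, Function.iterate_succ_apply', hmz]
      rw [iter_eq H] at h2
      have h3 := fixed_of_nonwand hr hF H hψ hs hT (nonWand_per hm (H.emb.injective h2)) s
      rw [← hq, H.restr, h3]) χ (Θ (x, y₁)) hχ (range Θ)
    (ret_of_skew F H hs hT x y ((nonWand_iff H hΘ _).1 hw) y₁ χ hχ)
  rwa [dAct_zero] at h1

section

variable (h) in
theorem skew_fixed {x : X} (hx : ∀ v, φ v x = x) (m : ℕ) (y : Y) :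
    (skew φ id h c)^[m] (x, y) = (x, h^[m] y) := by
  induction m with
  | zero => rfl
  | succ m ih =>
    rw [Function.iterate_succ_apply', ih, Function.iterate_succ_apply']
    unfold skew
    simp only [id, hx]

/-- the points fixed by the action are limits of periodic points -/
theorem limit_of_fixed (H : IsSkew F Θ ψ φ id h c) (hs : PerShadow h) (hT : ChainTrans h) {x : X}
    (hx : ∀ v, φ v x = x) (y : Y) : Θ (x, y) ∈ closure (Per F ∩ range Θ) := by
  have hcont : Continuous fun y' : Y => Θ (x, y') := H.emb.continuous.comp (by fun_prop)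
  rw [_root_.mem_closure_iff]
  intro o ho hxo
  have h1 : (fun y' : Y => Θ (x, y')) ⁻¹' o ∈ 𝓝 y :=
    hcont.continuousAt.preimage_mem_nhds (ho.mem_nhds hxo)
  obtain ⟨ε, hε, hsub⟩ := Metric.mem_nhds_iff.1 h1
  obtain ⟨q, b, hb, hq, hd⟩ := dense_per hs hT y ε hε
  refine ⟨Θ (x, q), hsub hd, ⟨b, hb, ?_⟩, ⟨_, rfl⟩⟩
  rw [iter_eq H, skew_fixed h hx, hq]

theorem nonWand_of_fixed (hs : PerShadow h) (hT : ChainTrans h) {x : X}
    (hx : ∀ v, φ v x = x) (y : Y) : NonWand (skew φ id h c) (x, y) := by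
  intro W hW
  have hcont : Continuous fun y' : Y => (x, y') := by fun_prop
  obtain ⟨ε, hε, hsub⟩ := Metric.mem_nhds_iff.1 (hcont.continuousAt.preimage_mem_nhds hW)
  obtain ⟨q, b, hb, hq, hd⟩ := dense_per hs hT y ε hε
  refine ⟨b, hb, (x, q), hsub hd, ?_⟩
  rw [skew_fixed h hx, hq]
  exact hsub hd

/-- there are finitely many fixed points of the action -/
theorem fixed_finite (hr : 1 ≤ r) (hF : OmegaStable n N r F) (H : IsSkew F Θ ψ φ id h c)
    (hs : PerShadow h) (hT : ChainTrans h) : {x : X | ∀ v, φ v x = x}.Finite := by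
  obtain ⟨U, -, hFU, hfin⟩ := finite_per hr hF
  obtain ⟨y⟩ : Nonempty Y := inferInstance
  obtain ⟨q, b, hb, hq, -⟩ := dense_per hs hT y 1 one_pos
  have h1 := (hfin F hFU b hb).preimage (f := fun x : X => Θ (x, q)) (by
    intro x _ x' _ hxx
    exact congrArg Prod.fst (H.emb.injective hxx))
  refine h1.subset ?_
  intro x hx
  show F^[b] (Θ (x, q)) = Θ (x, q)
  rw [iter_eq H, skew_fixed h hx, hq]

/-- **Drift** -/
theorem drift_of_stable [Infinite X] (hr : 1 ≤ r) (hF : OmegaStable n N r F)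
    (H : IsSkew F Θ ψ φ id h c) (hs : PerShadow h) (hT : ChainTrans h) :
    ∃ (l : V d →L[ℝ] ℝ) (κ C : ℝ), 0 < κ ∧ ∀ (y : Y) (m : ℕ),
      κ * m - C ≤ l (birkhoffSum h c m y) := by
  obtain ⟨U, hU, hFU, hfin⟩ := finite_per hr hF
  obtain ⟨y0⟩ : Nonempty Y := inferInstance
  obtain ⟨x0⟩ : Nonempty X := inferInstance
  have : Nonempty N := ⟨Θ (x0, y0)⟩
  obtain ⟨κ, hκ, hfam⟩ := fam_mem hr (fam H.act F) hU (by
    show F.trans (dAct H.act 0) ∈ U
    rw [dAct_zero]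
    exact hFU)
  refine drift h.continuous hs hT H.contc (κ / 2) (half_pos hκ) ?_
  intro y m hm hy
  by_contra hlt
  push Not at hlt
  have hm0 : (0 : ℝ) < m := by exact_mod_cast hm
  obtain ⟨σ, hσ⟩ : ∃ σ : V d, σ = -((m : ℝ)⁻¹ • birkhoffSum h c m y) := ⟨_, rfl⟩
  have hσκ : ‖σ‖ < κ := by
    rw [hσ, norm_neg, norm_smul, norm_inv, Real.norm_of_nonneg hm0.le, inv_mul_lt_iff₀ hm0]
    have : κ / 2 * m ≤ m * κ := by nlinarith
    linarith
  have h1 := hfin _ (hfam σ hσκ) m hm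
  refine Set.infinite_of_injective_forall_mem (f := fun x : X => Θ (x, y)) ?_ ?_ h1
  · intro x x' hxx
    exact congrArg Prod.fst (H.emb.injective hxx)
  · intro x
    show (F.trans (dAct H.act σ))^[m] (Θ (x, y)) = Θ (x, y)
    have h2 : birkhoffSum h c m y + (m : ℝ) • σ = 0 := by
      rw [hσ, smul_neg, smul_smul, mul_inv_cancel₀ hm0.ne', one_smul, add_neg_cancel]
    rw [H.iter, h2, H.phi_zero, hy, Function.iterate_id]
    rfl

end

end

section

variable {d n : ℕ} {N : Type u} [TopologicalSpace N] [T2Space N] [CompactSpace N]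
  [ChartedSpace (V n) N] [IsManifold (𝓡 n) ∞ N] {r : ℕ∞}
  {F : DiffM n N r} {X : Type v} {Y : Type w} [MetricSpace X] [CompactSpace X] [MetricSpace Y]
  [CompactSpace Y] {Θ : X × Y → N} {ψ : V d → N → N} {Ψ : ℝ → N → N} {φ : V d → X → X} {f : X → X}
  {g : ℝ → Y → Y} {C : ℝ → Y → V d}

/-- a flow as in the statement is not trivial -/
theorem not_fixed (hs : FlowShadow g) (hT : ChainTrans (g 1)) (hY : ∀ y : Y, ∃ y', ∀ t, g t y ≠ y')
    (y₀ : Y) (hfix : ∀ t y, g t y = y) : False := by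
  obtain ⟨y₁, hy₁⟩ := hY y₀
  have hne : 0 < dist y₀ y₁ := by
    apply dist_pos.2
    intro he
    exact hy₁ 0 (by rw [hfix, he])
  obtain ⟨δ, hδ, H⟩ := hs (dist y₀ y₁ / 2) (half_pos hne)
  obtain ⟨n₁, w₁, hn₁, ha₁, hb₁, hc₁⟩ := hT δ hδ y₀ y₁
  obtain ⟨n₂, w₂, hn₂, ha₂, hb₂, hc₂⟩ := hT δ hδ y₁ y₀
  obtain ⟨w, hw1, hw2, hw3⟩ := glue (fun a b => dist (g 1 a) b < δ) hc₁ hc₂ (by rw [hb₁, ha₂])
  obtain ⟨p, t, -, -, hd⟩ := H (n₁ + n₂) w (by omega) (by
    rw [hw2, hb₂, hw1 0 (Nat.zero_le _), ha₁]) hw3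
  have h1 := (hd 0 (by omega)).2
  have h2 := (hd n₁ (by omega)).2
  rw [hfix, hw1 0 (Nat.zero_le _), ha₁] at h1
  rw [hfix, hw1 n₁ le_rfl, hb₁] at h2
  have h4 := dist_triangle_left y₀ y₁ p
  linarith

/-- **`Ω`-stable diffeomorphisms are nowhere time maps of skew product flows.** -/
theorem no_skew_flow (hr : 1 ≤ r) (hF : OmegaStable n N r F) (H : IsSkewFlow n r Θ ψ Ψ φ g C)
    (hΨ : IsRFlow n N ⊤ Ψ) (hf : Continuous f) (hcomm : ∀ s x, f (φ s x) = φ s (f x)) (τ : ℝ)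
    (hτ0 : 0 < τ) (hmap : ∀ x y, F (Θ (x, y)) = Ψ τ (Θ (f x, y))) (hs : FlowShadow g)
    (hT : ChainTrans (g 1)) (hY : ∀ y : Y, ∃ y', ∀ t, g t y ≠ y') (x : X) (y₁ : Y)
    (hw : NonWand (skew φ f (g τ) (C τ)) (x, y₁)) : False := by
  have : Nonempty Y := ⟨y₁⟩
  have : Nonempty X := ⟨x⟩
  have h0 : (F.trans (dFlow H.flow (0 : V d × ℝ).2)).trans (dAct H.act (0 : V d × ℝ).1) = F := by
    ext z
    show ψ 0 (Ψ 0 (F z)) = F z
    rw [H.act.zero, H.flow.zero]
  have hF' : OmegaStable n N r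
      ((F.trans (dFlow H.flow (0 : V d × ℝ).2)).trans (dAct H.act (0 : V d × ℝ).1)) := h0.symm ▸ hF
  have hC0 := H.coc
  have hphi := H.phi_add
  have hg := H.cflow
  apply not_fixed hs hT hY y₁
  intro t y
  obtain ⟨χ, hχ⟩ := Pool.Agent.W699.SC.gc n N (Θ (x, y))
  have h1 := eig lin fld n N r hr (V d × ℝ)
    (fun s => (F.trans (dFlow H.flow s.2)).trans (dAct H.act s.1)) (famF H.act H.flow F) hF' χ
    (Θ (x, y)) hχ Ψ ⟨hΨ.smooth, hΨ.zero, hΨ.add⟩ (range Θ) (by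
      rintro t _ ⟨⟨x', y'⟩, rfl⟩
      exact ⟨_, (H.restr' _ _ _).symm⟩) (by
      rintro s _ ⟨⟨x', y'⟩, rfl⟩
      show ψ s.1 (Ψ s.2 (F (Θ (x', y')))) ∈ range Θ
      rw [hmap, ← H.flow.add, H.restr', H.restr]
      exact ⟨_, rfl⟩) (by
      rintro s t _ ⟨⟨x', y'⟩, rfl⟩
      show ψ s.1 (Ψ s.2 (F (Ψ t (Θ (x', y'))))) = Ψ t (ψ s.1 (Ψ s.2 (F (Θ (x', y')))))
      have e1 : F (Ψ t (Θ (x', y'))) = Ψ t (F (Θ (x', y'))) := by
        rw [H.restr', hmap, hmap, hcomm, ← H.restr' t (f x') y', ← H.flow.add, ← H.flow.add, add_comm]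
      have e2 : ∀ p : X × Y, ψ s.1 (Ψ t (Θ p)) = Ψ t (ψ s.1 (Θ p)) := by
        rintro ⟨x2, y2⟩
        rw [H.restr', H.restr, H.restr, H.restr', ← hphi, ← hphi, add_comm]
      have e3 : Ψ s.2 (F (Θ (x', y'))) = Θ (φ (C (s.2 + τ) y') (f x'), g (s.2 + τ) y') := by
        rw [hmap, ← H.flow.add, H.restr']
      rw [e1, ← H.flow.add, add_comm s.2 t, H.flow.add, e3, e2])
    (ret_of_flow F H hf hcomm τ hτ0 hmap hs hT hY x y₁ hw y χ hχ) t
  rw [H.restr'] at h1
  exact congrArg Prod.snd (H.emb.injective h1)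

end

end Run7.h619.SK
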