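import Pool.Agent.Run7.h619.SK.Main
import Pool.Agent.N15.OT.Defs

/-!
# Almost returns of skew products over chain transitive maps with the periodic shadowing property
-/

set_option autoImplicit false
set_option linter.unusedSectionVars false

open Filter Set Metric
open scoped Manifold ContDiff Topology

universe u v w

namespace Run7.h619.SK

open Pool.Agent.H718R2.G Pool.Agent.W564.SC Pool.Agent.W216.SC Pool.Agent.N15.OT

/-- **Almost returns of skew products**, near all the points over the nonwandering one. -/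
theorem ret_of_skew {d n : ℕ} {N : Type u} [TopologicalSpace N] [T2Space N] [CompactSpace N]
    [ChartedSpace (V n) N] [IsManifold (𝓡 n) ∞ N] {r : ℕ∞} (F : DiffM n N r)
    {X : Type v} {Y : Type w} [MetricSpace X] [CompactSpace X] [MetricSpace Y] [CompactSpace Y]
    [Infinite Y] {Θ : X × Y → N} {ψ : V d → N → N} {φ : V d → X → X} {f : X → X} {h : Y ≃ₜ Y}
    {c : Y → V d} (H : IsSkew F Θ ψ φ f h c) (hs : PerShadow h) (hT : ChainTrans h) (x : X) (y₁ : Y)
    (hw : NonWand (skew φ f h c) (x, y₁)) (y : Y) (χ : OpenPartialHomeomorph N (V n))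
    (hχ : GoodChart n N χ (Θ (x, y))) :
    FamRet (fun s => (F.trans (dAct H.act s) : N → N)) χ (range Θ) := by
  intro k κ hκ
  obtain ⟨τ, hτ⟩ := dir H.phi_zero H.phi_add H.comm (H.skew_cont h.continuous) H.contc x y₁ hw
  obtain ⟨η, hη, hball⟩ := good_ball H.emb hχ rfl (lt_min hκ (half_pos one_pos) :
    (0 : ℝ) < min κ (1 / 2))
  obtain ⟨κ', hκ'⟩ : ∃ κ' : ℝ, κ' = κ / 8 := ⟨_, rfl⟩
  have hκ'0 : 0 < κ' := by rw [hκ']; positivity
  -- the periodic orbit `q`
  have huc := CompactSpace.uniformContinuous_of_continuous H.contc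
  obtain ⟨e, he, hec⟩ := Metric.uniformContinuous_iff.1 huc κ' hκ'0
  obtain ⟨δ₁, hδ₁, hsh⟩ := hs e he
  obtain ⟨b, x1, y1, -, hb1, -, hy1, -, hy1b, hb⟩ := hτ (min κ' (δ₁ / 2))
    (lt_min hκ'0 (half_pos hδ₁)) 1
  have hret : dist (h^[b] y1) y1 < δ₁ := by
    have h1 := dist_triangle_right (h^[b] y1) y1 y₁
    have h2 := min_le_right κ' (δ₁ / 2)
    linarith
  obtain ⟨q, hq, hqy⟩ := hsh b (fun i => if i < b then h^[i] y1 else y1) hb1 (by
    have h1 : 0 < b := by omega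
    simp only [lt_irrefl, if_false, h1, if_true]
    rfl) (by
    intro i hi
    simp only [hi, if_true]
    rw [← Function.iterate_succ_apply' h]
    split_ifs with h1
    · rw [dist_self]
      exact hδ₁
    · have h2 : i.succ = b := by omega
      rw [h2]
      exact hret)
  obtain ⟨τq, hτq⟩ : ∃ τq : V d, τq = (b : ℝ)⁻¹ • birkhoffSum h c b q := ⟨_, rfl⟩
  have hb0 : (0 : ℝ) < b := by exact_mod_cast hb1
  have hττ : ‖τq - τ‖ ≤ 2 * κ' := by
    have h1 : ‖birkhoffSum h c b q - birkhoffSum h c b y1‖ ≤ κ' * b := by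
      unfold birkhoffSum
      rw [← Finset.sum_sub_distrib]
      refine (norm_sum_le _ _).trans ?_
      have h2 : ∀ i ∈ Finset.range b, ‖c (h^[i] q) - c (h^[i] y1)‖ ≤ κ' := by
        intro i hi
        have h3 := hqy i (Finset.mem_range.1 hi)
        simp only [Finset.mem_range.1 hi, if_true] at h3
        rw [← dist_eq_norm]
        exact (hec h3).le
      refine (Finset.sum_le_sum h2).trans ?_
      rw [Finset.sum_const, Finset.card_range, nsmul_eq_mul, mul_comm]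
    have h2 : ‖birkhoffSum h c b y1 - (b : ℝ) • τ‖ ≤ κ' * b :=
      hb.trans (mul_le_mul_of_nonneg_right (min_le_left _ _) hb0.le)
    have h3 : (b : ℝ) • (τq - τ) = (birkhoffSum h c b q - birkhoffSum h c b y1) +
        (birkhoffSum h c b y1 - (b : ℝ) • τ) := by
      rw [hτq, smul_sub, smul_smul, mul_inv_cancel₀ hb0.ne', one_smul]
      abel
    have h4 : ‖(b : ℝ) • (τq - τ)‖ ≤ κ' * b + κ' * b := by
      rw [h3]
      exact (norm_add_le _ _).trans (add_le_add h1 h2)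
    rw [norm_smul, Real.norm_of_nonneg hb0.le] at h4
    have h5 : (b : ℝ) * ‖τq - τ‖ ≤ b * (2 * κ') := by linarith
    exact le_of_mul_le_mul_left h5 hb0
  -- the initial point
  obtain ⟨y₀, hy₀, hqy₀⟩ := exists_near hs hT y q b hb1 hq (η / 2) (half_pos hη)
  obtain ⟨δ, ρ₀, C, M, hδ, hρ₀, hflex⟩ := flex hs hT y₀ q b hb1 hq hqy₀ c H.contc
    (min (η / 2) κ') (lt_min (half_pos hη) hκ'0)
  rw [← hτq] at hflex
  obtain ⟨ρ1, hρ1, hsep⟩ := sep (X := X) (Y := Y) H.emb hχ hρ₀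
  obtain ⟨ρ, hρd⟩ : ∃ ρ : ℝ, ρ = min (ρ1 / 2) (κ / 2) := ⟨_, rfl⟩
  have hρ : 0 < ρ := by rw [hρd]; exact lt_min (half_pos hρ1) (half_pos hκ)
  have hρκ : ρ < κ := by
    rw [hρd]
    exact (min_le_right _ _).trans_lt (half_lt_self hκ)
  have hρρ : 2 * ρ ≤ ρ1 := by
    have := min_le_left (ρ1 / 2) (κ / 2)
    rw [← hρd] at this
    linarith
  -- uniform continuity
  have hBc : IsCompact (closedBall ((x, y) : X × Y) η) := Metric.isClosed_closedBall.isCompact
  have hco : ContinuousOn (fun p : X × Y => χ (Θ p)) (closedBall ((x, y) : X × Y) η) := by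
    apply χ.continuousOn.comp H.emb.continuous.continuousOn
    intro p hp
    exact (hball p hp).1
  have huc2 := hBc.uniformContinuousOn_of_continuous hco
  rw [Metric.uniformContinuousOn_iff] at huc2
  have hκρ : 0 < κ * ρ ^ k := by positivity
  obtain ⟨δ3, hδ3, huc3⟩ := huc2 (κ * ρ ^ k) hκρ
  obtain ⟨ε, hεd⟩ : ∃ ε : ℝ, ε = min (min η κ') (min (δ / 2) (δ3 / 2)) := ⟨_, rfl⟩
  have hε : 0 < ε := by
    rw [hεd]
    exact lt_min (lt_min hη hκ'0) (lt_min (half_pos hδ) (half_pos hδ3))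
  have hεη : ε ≤ η := by rw [hεd]; exact (min_le_left _ _).trans (min_le_left _ _)
  have hεκ : ε ≤ κ' := by rw [hεd]; exact (min_le_left _ _).trans (min_le_right _ _)
  have hεδ : ε ≤ δ / 2 := by rw [hεd]; exact (min_le_right _ _).trans (min_le_left _ _)
  have hεδ3 : ε ≤ δ3 / 2 := by rw [hεd]; exact (min_le_right _ _).trans (min_le_right _ _)
  obtain ⟨M', hM'⟩ := exists_nat_ge (C / κ')
  obtain ⟨m, x2, y2, hmM, hm1, hx2, hy2, hx2m, hy2m, hm⟩ := hτ ε hε (max M M')
  have hm0 : (0 : ℝ) < m := by exact_mod_cast hm1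
  have hCm : C ≤ κ' * m := by
    have h1 : (M' : ℝ) ≤ m := by
      have := (le_max_right M M').trans hmM
      exact_mod_cast this
    rw [div_le_iff₀ hκ'0] at hM'
    nlinarith
  obtain ⟨y', hy', hy'm, hy's, hy'c⟩ := hflex m ((le_max_left M M').trans hmM) y2 (by
    have h1 := dist_triangle_right (h^[m] y2) y2 y₁
    linarith)
  have hyη : dist y' y ≤ η := by
    have h1 := dist_triangle y' y₀ y
    have h2 := min_le_left (η / 2) κ'
    linarith
  obtain ⟨s, hs'⟩ : ∃ s : V d, s = birkhoffSum h c m y2 := ⟨_, rfl⟩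
  rw [← hs'] at hx2m hm
  obtain ⟨σ, hσ⟩ : ∃ σ : V d, σ = (m : ℝ)⁻¹ • (s - birkhoffSum h c m y') := ⟨_, rfl⟩
  have hmσ : (m : ℝ) • σ = s - birkhoffSum h c m y' := by
    rw [hσ, smul_smul, mul_inv_cancel₀ hm0.ne', one_smul]
  have hσκ : ‖σ‖ < κ := by
    have h1 : (m : ℝ) • σ = (s - (m : ℝ) • τ) - (m : ℝ) • (τq - τ) -
        (birkhoffSum h c m y' - (m : ℝ) • τq) := by
      rw [hmσ, smul_sub]
      abel
    have h2 : ‖(m : ℝ) • (τq - τ)‖ ≤ m * (2 * κ') := by
      rw [norm_smul, Real.norm_of_nonneg hm0.le]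
      exact mul_le_mul_of_nonneg_left hττ hm0.le
    have h3 : ‖birkhoffSum h c m y' - (m : ℝ) • τq‖ ≤ κ' * m + C :=
      hy'c.trans (by
        have := mul_le_mul_of_nonneg_right (min_le_right (η / 2) κ') hm0.le
        linarith)
    have h4 : ‖s - (m : ℝ) • τ‖ ≤ κ' * m := hm.trans (mul_le_mul_of_nonneg_right hεκ hm0.le)
    have h5 : ‖(m : ℝ) • σ‖ ≤ 5 * κ' * m := by
      rw [h1]
      refine (norm_sub_le _ _).trans ?_
      have h6 := norm_sub_le (s - (m : ℝ) • τ) ((m : ℝ) • (τq - τ))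
      linarith
    rw [norm_smul, Real.norm_of_nonneg hm0.le] at h5
    have h7 : (m : ℝ) * ‖σ‖ ≤ m * (5 * κ') := by linarith
    have h8 := le_of_mul_le_mul_left h7 hm0
    rw [hκ'] at h8
    linarith
  have hit : ∀ i, (F.trans (dAct H.act σ))^[i] (Θ (x2, y')) =
      Θ (φ (birkhoffSum h c i y' + (i : ℝ) • σ) (f^[i] x2), h^[i] y') := fun i =>
    H.iter σ i x2 y'
  have hitm : (F.trans (dAct H.act σ))^[m] (Θ (x2, y')) = Θ (φ s (f^[m] x2), y') := by
    rw [hit, hmσ, hy'm]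
    congr 3
    abel
  have hmem : ∀ x' : X, dist x' x ≤ η → Θ (x', y') ∈ χ.source ∧ ‖χ (Θ (x', y'))‖ < min κ (1 / 2) := by
    intro x' h1
    apply hball
    rw [Prod.dist_eq]
    exact max_le h1 hyη
  obtain ⟨ha1, ha2⟩ := hmem x2 (hx2.le.trans hεη)
  obtain ⟨hb2, hb3⟩ := hmem (φ s (f^[m] x2)) (hx2m.le.trans hεη)
  refine ⟨σ, Θ (x2, y'), ρ, m, hσκ, mem_range_self _, ha1, ha2.trans_le (min_le_left _ _), hρ, hρκ,
    hm1, ?_, ?_, ?_⟩
  · rw [hitm]
    exact hb2
  · rw [hitm, ← dist_eq_norm]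
    apply huc3 (φ s (f^[m] x2), y') _ (x2, y')
    · rw [mem_closedBall, Prod.dist_eq]
      exact max_le (hx2.le.trans hεη) hyη
    · rw [Prod.dist_eq]
      simp only [dist_self]
      have h5 := dist_triangle_right (φ s (f^[m] x2)) x2 x
      apply max_lt _ hδ3
      linarith
    · rw [mem_closedBall, Prod.dist_eq]
      exact max_le (hx2m.le.trans hεη) hyη
  · intro i hi0 him hsrc
    rw [hit] at hsrc ⊢
    have h5 := hsep (x2, y') _ (by
      rw [Prod.dist_eq]
      exact (hy's i hi0 him).trans (le_max_right _ _)) ha1 (ha2.trans_le (min_le_right _ _)) hsrc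
    linarith


end Run7.h619.SK
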